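import Pool.Agent.helper29.NS.Spec2

/-!
Project ns: (MP_b9b054_an), module SB: boundary values in shear coordinates.
-/

namespace NS

open MeasureTheory Filter Topology Set

/-- derivative of a function along the curve `s ↦ (s, f s)` -/
theorem SB_curve (F : ℝ × ℝ → ℝ) (f : ℝ → ℝ) (s : ℝ) (hF : DifferentiableAt ℝ F (s, f s))
    (hf : DifferentiableAt ℝ f s) :
    HasDerivAt (fun s => F (s, f s)) (px F (s, f s) + deriv f s * py F (s, f s)) s := by
  have h1 : HasDerivAt (fun s => ((s, f s) : ℝ × ℝ)) (1, deriv f s) s :=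
    (hasDerivAt_id s).prodMk hf.hasDerivAt
  have h2 := hF.hasFDerivAt.comp_hasDerivAt s h1
  have h3 : fderiv ℝ F (s, f s) (1, deriv f s) = px F (s, f s) + deriv f s * py F (s, f s) := by
    have : ((1, deriv f s) : ℝ × ℝ) = (1, 0) + deriv f s • ((0, 1) : ℝ × ℝ) := by simp
    rw [this, map_add, map_smul]; rfl
  rw [← h3]; exact h2

/-- derivative in vertical direction -/
theorem SB_vert (F : ℝ × ℝ → ℝ) (s r : ℝ) (hF : DifferentiableAt ℝ F (s, r)) :
    HasDerivAt (fun r => F (s, r)) (py F (s, r)) r := by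
  have h1 : HasDerivAt (fun r => ((s, r) : ℝ × ℝ)) (0, 1) r :=
    (hasDerivAt_const r s).prodMk (hasDerivAt_id r)
  exact hF.hasFDerivAt.comp_hasDerivAt r h1

/-- a function which vanishes for `|s| < ε` has zero derivative there -/
theorem SB_zero (G : ℝ → ℝ) (ε s d : ℝ) (hs : |s| < ε) (hG : ∀ s, |s| < ε → G s = 0)
    (hd : HasDerivAt G d s) : d = 0 := by
  have h1 : ∀ᶠ s' in 𝓝 s, |s'| < ε :=
    (isOpen_lt continuous_abs continuous_const).mem_nhds hs
  have h2 : G =ᶠ[𝓝 s] fun _ => (0 : ℝ) := h1.mono fun s' hs' => hG s' hs'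
  have h3 : HasDerivAt G 0 s := (hasDerivAt_const s (0 : ℝ)).congr_of_eventuallyEq h2
  exact hd.unique h3

theorem SB (hSP : SP_stmt) (hSR : SR_stmt) : SB_stmt := by
  intro f δ a b hf f0 hδ ha hb hinc hbc
  have ha' : ContDiff ℝ ((1 + 1 : ℕ) : WithTop ℕ∞) a := by exact_mod_cast ha
  have hb' : ContDiff ℝ ((1 + 1 : ℕ) : WithTop ℕ∞) b := by exact_mod_cast hb
  obtain ⟨ax, ay, asym⟩ := hSP 1 a ha'
  obtain ⟨bx, bby, bsym⟩ := hSP 1 b hb'
  have asym := asym le_rfl
  have bsym := bsym le_rfl
  have hfd : Differentiable ℝ f := hf.differentiable (by norm_num)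
  have hf' : ContDiff ℝ 1 (deriv f) := by
    have h : ContDiff ℝ (1 + 1) f := by
      have e : (1 + 1 : WithTop ℕ∞) = 2 := by norm_num
      rw [e]; exact hf
    exact (contDiff_succ_iff_deriv.1 h).2.2
  have hfd' : Differentiable ℝ (deriv f) := hf'.differentiable (by norm_num)
  have had : Differentiable ℝ a := ha.differentiable (by norm_num)
  have hbd : Differentiable ℝ b := hb.differentiable (by norm_num)
  have axd : Differentiable ℝ (px a) := ax.differentiable (by norm_num)
  have ayd : Differentiable ℝ (py a) := ay.differentiable (by norm_num)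
  have bxd : Differentiable ℝ (px b) := bx.differentiable (by norm_num)
  have byd : Differentiable ℝ (py b) := bby.differentiable (by norm_num)
  -- small interval
  obtain ⟨ε, hε, hεδ, hfε⟩ : ∃ ε > 0, ε ≤ δ ∧ ∀ s, |s| < ε → |f s| < δ := by
    have hc : ContinuousAt (fun s => |f s|) 0 := (hfd.continuous.abs).continuousAt
    have h1 : ∀ᶠ s in 𝓝 (0 : ℝ), |f s| < δ := by
      apply hc.eventually_lt continuousAt_const
      simp only [f0, abs_zero]; exact hδ
    obtain ⟨e, he, h2⟩ := Metric.eventually_nhds_iff.1 h1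
    refine ⟨min e δ, lt_min he hδ, min_le_right _ _, fun s hs => h2 ?_⟩
    rw [Real.dist_eq, sub_zero]
    exact lt_of_lt_of_le hs (min_le_left _ _)
  have hA : ∀ s, |s| < ε → px a (s, f s) + deriv f s * py a (s, f s) = 0 := by
    intro s hs
    refine SB_zero (fun s => a (s, f s)) ε s _ hs (fun s hs => ?_)
      (SB_curve a f s (had _) (hfd _))
    exact (hbc s (lt_of_lt_of_le hs hεδ) (hfε s hs)).1
  have hB : ∀ s, |s| < ε → px b (s, f s) + deriv f s * py b (s, f s) = 0 := by
    intro s hs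
    refine SB_zero (fun s => b (s, f s)) ε s _ hs (fun s hs => ?_)
      (SB_curve b f s (hbd _) (hfd _))
    exact (hbc s (lt_of_lt_of_le hs hεδ) (hfε s hs)).2
  have hI : ∀ s, |s| < ε → px a (s, f s) + py b (s, f s) = 0 := by
    intro s hs
    have hfs := abs_lt.1 (hfε s hs)
    have hcont : Continuous fun r : ℝ => px a (s, r) + py b (s, r) :=
      (axd.continuous.comp (by fun_prop)).add (byd.continuous.comp (by fun_prop))
    have h1 : Tendsto (fun r : ℝ => px a (s, r) + py b (s, r)) (𝓝[>] (f s))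
        (𝓝 (px a (s, f s) + py b (s, f s))) := (hcont.tendsto (f s)).mono_left nhdsWithin_le_nhds
    have h2 : (fun r : ℝ => px a (s, r) + py b (s, r)) =ᶠ[𝓝[>] (f s)] fun _ => (0 : ℝ) := by
      have h3 : Ioo (f s) δ ∈ 𝓝[>] (f s) := Ioo_mem_nhdsGT hfs.2
      filter_upwards [h3] with r hr
      exact hinc s r (lt_of_lt_of_le hs hεδ) (abs_lt.2 ⟨by linarith [hr.1], hr.2⟩) hr.1
    have h3 : Tendsto (fun r : ℝ => px a (s, r) + py b (s, r)) (𝓝[>] (f s)) (𝓝 0) :=
      (tendsto_congr' h2).2 tendsto_const_nhds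
    exact tendsto_nhds_unique h1 h3
  have h00 : |(0 : ℝ)| < ε := by rw [abs_zero]; exact hε
  have A0 := hA 0 h00
  have B0 := hB 0 h00
  have I0 := hI 0 h00
  rw [f0] at A0 B0 I0
  refine ⟨⟨ε, hε, fun s hs => ⟨?_, ?_⟩⟩, ?_, ?_⟩
  · simp only [cB, add_zero]
    exact hA s hs
  · simp only [cC, add_zero]
    rw [hA s hs, hB s hs]; ring
  · have e1 : py b (0, 0) = deriv f 0 * py a (0, 0) := by linarith
    have e2 : px b (0, 0) = -(deriv f 0 * (deriv f 0 * py a (0, 0))) := by
      rw [← e1]; linarith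
    rw [e2]; ring
  · -- derivative of the boundary relation
    have hG : ∀ s, |s| < ε → py b (s, f s) - deriv f s * py a (s, f s) = 0 := by
      intro s hs
      linarith [hA s hs, hI s hs]
    have hGd : HasDerivAt (fun s => py b (s, f s) - deriv f s * py a (s, f s))
        ((px (py b) (0, f 0) + deriv f 0 * py (py b) (0, f 0)) -
          (deriv (deriv f) 0 * py a (0, f 0) + deriv f 0 *
            (px (py a) (0, f 0) + deriv f 0 * py (py a) (0, f 0)))) 0 :=
      (SB_curve (py b) f 0 (byd _) (hfd _)).sub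
        ((hfd' 0).hasDerivAt.mul (SB_curve (py a) f 0 (ayd _) (hfd _)))
    have k1 := SB_zero _ ε 0 _ h00 hG hGd
    rw [f0, asym, bsym] at k1
    -- vertical derivative of `cC`
    have hCd : DifferentiableAt ℝ (cC f a b) (0, 0) :=
      (hSR f a b a b hf ha hb ha hb).2.2.1.differentiable (by norm_num) _
    have v1 := SB_vert (cC f a b) 0 0 hCd
    have v2 : HasDerivAt (fun r => cC f a b (0, r))
        (py (px b) (0, 0) + deriv f 0 * py (py b) (0, 0)
          - deriv f 0 * (py (px a) (0, 0) + deriv f 0 * py (py a) (0, 0))) 0 := by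
      have e : (fun r => cC f a b (0, r)) = fun r => px b (0, r) + deriv f 0 * py b (0, r)
          - deriv f 0 * (px a (0, r) + deriv f 0 * py a (0, r)) := by
        funext r
        simp only [cC, f0, zero_add]
      rw [e]
      exact ((SB_vert (px b) 0 0 (bxd _)).add ((SB_vert (py b) 0 0 (byd _)).const_mul _)).sub
        (((SB_vert (px a) 0 0 (axd _)).add ((SB_vert (py a) 0 0 (ayd _)).const_mul _)).const_mul _)
    have k2 := v1.unique v2
    rw [k2]
    linarith

end NS
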