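import Pool.Agent.helper29.NS.Spec2

/-!
Project ns: (MP_b9b054_an), module VA: averaged vorticity equation.
-/

namespace NS

open MeasureTheory Filter Topology Set

theorem VA_half (e : ℝ × ℝ × ℝ) (f g : ℝ × ℝ × ℝ → ℝ) (hf : Differentiable ℝ f)
    (hg : Differentiable ℝ g) (z : ℝ × ℝ × ℝ) :
    fderiv ℝ (fun z => (f z + g z) / 2) z e = (fderiv ℝ f z e + fderiv ℝ g z e) / 2 := by
  have h : HasFDerivAt (fun z => (f z + g z) * (1 / 2 : ℝ))
      ((1 / 2 : ℝ) • (fderiv ℝ f z + fderiv ℝ g z)) z :=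
    ((hf z).hasFDerivAt.add (hg z).hasFDerivAt).mul_const (1 / 2 : ℝ)
  have e1 : (fun z => (f z + g z) / 2) = fun z => (f z + g z) * (1 / 2 : ℝ) := by
    funext z; ring
  rw [e1, h.fderiv]
  simp
  ring

theorem VA_sub (e : ℝ × ℝ × ℝ) (f g : ℝ × ℝ × ℝ → ℝ) (hf : Differentiable ℝ f)
    (hg : Differentiable ℝ g) (z : ℝ × ℝ × ℝ) :
    fderiv ℝ (fun z => f z - g z) z e = fderiv ℝ f z e - fderiv ℝ g z e := by
  have h := (hf z).hasFDerivAt.sub (hg z).hasFDerivAt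
  have h2 : fderiv ℝ (fun z => f z - g z) z = fderiv ℝ f z - fderiv ℝ g z := h.fderiv
  rw [h2]
  simp

/-- regularity of the derivatives of a `C³` function -/
theorem VA_reg (hSM : SM_stmt) (f : ℝ × ℝ × ℝ → ℝ) (hf : ContDiff ℝ 3 f) :
    ContDiff ℝ 2 (dt f) ∧ ContDiff ℝ 2 (dx f) ∧ ContDiff ℝ 2 (dy f) := by
  have hf' : ContDiff ℝ ((2 + 1 : ℕ) : WithTop ℕ∞) f := by exact_mod_cast hf
  obtain ⟨h1, h2, h3, -⟩ := hSM 2 f hf'
  exact ⟨h1, h2, h3⟩

theorem VA_reg2 (hSM : SM_stmt) (f : ℝ × ℝ × ℝ → ℝ) (hf : ContDiff ℝ 2 f) :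
    ContDiff ℝ 1 (dt f) ∧ ContDiff ℝ 1 (dx f) ∧ ContDiff ℝ 1 (dy f) := by
  have hf' : ContDiff ℝ ((1 + 1 : ℕ) : WithTop ℕ∞) f := by exact_mod_cast hf
  obtain ⟨h1, h2, h3, -⟩ := hSM 1 f hf'
  exact ⟨by exact_mod_cast h1, by exact_mod_cast h2, by exact_mod_cast h3⟩

theorem VA (hCR : CR_stmt) (hSM : SM_stmt) (hVE : VE_stmt) : VA_stmt := by
  intro Ω ν B g h a1 b1 p1 a2 b2 p2 hΩ hg hh R1 R2 S1 S2 a b m n ha hb hm hn t q hq
  have ca1 : ContDiff ℝ 3 a1 := by exact_mod_cast hCR 3 B a1 R1.ra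
  have cb1 : ContDiff ℝ 3 b1 := by exact_mod_cast hCR 3 B b1 R1.rb
  have cp1 : ContDiff ℝ 2 p1 := by exact_mod_cast hCR 2 B p1 R1.rp
  have ca2 : ContDiff ℝ 3 a2 := by exact_mod_cast hCR 3 B a2 R2.ra
  have cb2 : ContDiff ℝ 3 b2 := by exact_mod_cast hCR 3 B b2 R2.rb
  have cp2 : ContDiff ℝ 2 p2 := by exact_mod_cast hCR 2 B p2 R2.rp
  have da1 : Differentiable ℝ a1 := ca1.differentiable (by norm_num)
  have db1 : Differentiable ℝ b1 := cb1.differentiable (by norm_num)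
  have da2 : Differentiable ℝ a2 := ca2.differentiable (by norm_num)
  have db2 : Differentiable ℝ b2 := cb2.differentiable (by norm_num)
  have w1 : ContDiff ℝ 2 (vort a1 b1) :=
    (VA_reg hSM b1 cb1).2.1.sub (VA_reg hSM a1 ca1).2.2
  have w2 : ContDiff ℝ 2 (vort a2 b2) :=
    (VA_reg hSM b2 cb2).2.1.sub (VA_reg hSM a2 ca2).2.2
  have dw1 : Differentiable ℝ (vort a1 b1) := w1.differentiable (by norm_num)
  have dw2 : Differentiable ℝ (vort a2 b2) := w2.differentiable (by norm_num)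
  obtain ⟨-, x1, y1⟩ := VA_reg2 hSM _ w1
  obtain ⟨-, x2, y2⟩ := VA_reg2 hSM _ w2
  have dx1 : Differentiable ℝ (dx (vort a1 b1)) := x1.differentiable (by norm_num)
  have dy1 : Differentiable ℝ (dy (vort a1 b1)) := y1.differentiable (by norm_num)
  have dx2 : Differentiable ℝ (dx (vort a2 b2)) := x2.differentiable (by norm_num)
  have dy2 : Differentiable ℝ (dy (vort a2 b2)) := y2.differentiable (by norm_num)
  have e1 : vort m n = fun z => (vort a1 b1 z + vort a2 b2 z) / 2 := by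
    funext z
    have k1 : dx n z = (dx b1 z + dx b2 z) / 2 := by
      rw [hn]; exact VA_half _ b1 b2 db1 db2 z
    have k2 : dy m z = (dy a1 z + dy a2 z) / 2 := by
      rw [hm]; exact VA_half _ a1 a2 da1 da2 z
    unfold vort
    rw [k1, k2]; ring
  have e2 : vort a b = fun z => vort a1 b1 z - vort a2 b2 z := by
    funext z
    have k1 : dx b z = dx b1 z - dx b2 z := by
      rw [hb]; exact VA_sub _ b1 b2 db1 db2 z
    have k2 : dy a z = dy a1 z - dy a2 z := by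
      rw [ha]; exact VA_sub _ a1 a2 da1 da2 z
    unfold vort
    rw [k1, k2]; ring
  have f1 : ∀ z, dt (vort m n) z = (dt (vort a1 b1) z + dt (vort a2 b2) z) / 2 := by
    intro z; rw [e1]; exact VA_half _ _ _ dw1 dw2 z
  have f2 : dx (vort m n) = fun z => (dx (vort a1 b1) z + dx (vort a2 b2) z) / 2 := by
    funext z; rw [e1]; exact VA_half _ _ _ dw1 dw2 z
  have f3 : dy (vort m n) = fun z => (dy (vort a1 b1) z + dy (vort a2 b2) z) / 2 := by
    funext z; rw [e1]; exact VA_half _ _ _ dw1 dw2 z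
  have f4 : ∀ z, dx (dx (vort m n)) z =
      (dx (dx (vort a1 b1)) z + dx (dx (vort a2 b2)) z) / 2 := by
    intro z; rw [f2]; exact VA_half _ _ _ dx1 dx2 z
  have f5 : ∀ z, dy (dy (vort m n)) z =
      (dy (dy (vort a1 b1)) z + dy (dy (vort a2 b2)) z) / 2 := by
    intro z; rw [f3]; exact VA_half _ _ _ dy1 dy2 z
  have f6 : ∀ z, dx (vort a b) z = dx (vort a1 b1) z - dx (vort a2 b2) z := by
    intro z; rw [e2]; exact VA_sub _ _ _ dw1 dw2 z
  have f7 : ∀ z, dy (vort a b) z = dy (vort a1 b1) z - dy (vort a2 b2) z := by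
    intro z; rw [e2]; exact VA_sub _ _ _ dw1 dw2 z
  have v1 := hVE Ω ν g h a1 b1 p1 hΩ ca1 cb1 cp1 hg hh S1 t q hq
  have v2 := hVE Ω ν g h a2 b2 p2 hΩ ca2 cb2 cp2 hg hh S2 t q hq
  have g2 : dx (vort m n) (t, q) = (dx (vort a1 b1) (t, q) + dx (vort a2 b2) (t, q)) / 2 := by
    rw [f2]
  have g3 : dy (vort m n) (t, q) = (dy (vort a1 b1) (t, q) + dy (vort a2 b2) (t, q)) / 2 := by
    rw [f3]
  rw [f1, f4, f5, f6, f7, g2, g3, ha, hb, hm, hn]
  linear_combination (1 / 2 : ℝ) * v1 + (1 / 2 : ℝ) * v2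

end NS
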